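import Pool.Agent.helper36.BP.SpecD

/-!
# Row bp:PDC (MP_ad8ced_nt)
-/

set_option autoImplicit false

open Finset ArithmeticFunction
open Pool.Agent.FI Pool.Agent.HK
open Pool.Agent.CH (nit rgh ll2)
open Pool.Agent.SK (tr0 Th)

namespace Pool.Agent.BP

/-- weighted sum of a Dirichlet convolution -/
theorem PDC_conv (f g : ArithmeticFunction ℂ) (G : ℕ → ℂ) (N : ℕ) :
    ∑ n ∈ Ioc 0 N, (f * g) n * G n =
      ∑ n ∈ Ioc 0 N, f n * ∑ m ∈ Ioc 0 (N / n), g m * G (n * m) := by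
  have h1 : ∑ n ∈ Ioc 0 N, (f * g) n * G n =
      ∑ x ∈ (Ioc 0 N ×ˢ Ioc 0 N).filter (fun x => x.1 * x.2 ≤ N),
        f x.1 * (g x.2 * G (x.1 * x.2)) := by
    trans ∑ n ∈ Ioc 0 N, ∑ x ∈ (Ioc 0 N ×ˢ Ioc 0 N).filter (fun x => x.1 * x.2 = n),
        f x.1 * (g x.2 * G (x.1 * x.2))
    · refine sum_congr rfl fun n hn => ?_
      simp only [mem_Ioc] at hn
      rw [ArithmeticFunction.mul_apply, Nat.divisorsAntidiagonal_eq_prod_filter_of_le hn.1.ne' hn.2]
      rw [Finset.sum_mul]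
      refine sum_congr rfl fun x hx => ?_
      rw [(mem_filter.1 hx).2, mul_assoc]
    · simp_rw [sum_filter]
      rw [sum_comm]
      refine sum_congr rfl fun x hx => ?_
      rw [Finset.sum_ite_eq]
      simp only [mem_product, mem_Ioc] at hx
      have : 0 < x.1 * x.2 := Nat.mul_pos hx.1.1 hx.2.1
      simp only [mem_Ioc, this, true_and]
  rw [h1, sum_filter, sum_product]
  refine sum_congr rfl fun n hn => ?_
  simp only [mem_Ioc] at hn
  rw [Finset.mul_sum, ← sum_filter]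
  refine sum_congr ?_ fun _ _ => rfl
  ext m
  simp only [mem_filter, mem_Ioc]
  constructor
  · rintro ⟨⟨h1, _⟩, h2⟩
    exact ⟨h1, (Nat.le_div_iff_mul_le hn.1).2 (by rw [mul_comm]; exact h2)⟩
  · rintro ⟨h1, h2⟩
    have h3 := (Nat.le_div_iff_mul_le hn.1).1 h2
    refine ⟨⟨h1, ?_⟩, by rw [mul_comm]; exact h3⟩
    exact (Nat.le_mul_of_pos_right m hn.1).trans h3

/-- sum over a box in dimension `R + 1` -/
theorem PDC_cons (R : ℕ) (S : Finset ℕ) (F : (Fin (R + 1) → ℕ) → ℂ) :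
    ∑ m ∈ Fintype.piFinset (fun _ : Fin (R + 1) => S), F m =
      ∑ n ∈ S, ∑ m ∈ Fintype.piFinset (fun _ : Fin R => S), F (Fin.cons n m) := by
  rw [← Finset.sum_product']
  refine Finset.sum_nbij' (fun m => (m 0, Fin.tail m)) (fun p => Fin.cons p.1 p.2) ?_ ?_ ?_ ?_ ?_
  · intro m hm
    rw [Fintype.mem_piFinset] at hm
    rw [mem_product, Fintype.mem_piFinset]
    exact ⟨hm 0, fun i => hm i.succ⟩
  · intro p hp
    rw [mem_product, Fintype.mem_piFinset] at hp
    rw [Fintype.mem_piFinset]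
    intro i
    refine Fin.cases ?_ (fun j => ?_) i
    · simpa using hp.1
    · simpa using hp.2 j
  · intro m _
    exact Fin.cons_self_tail m
  · intro p _
    simp
  · intro m _
    simp only [Fin.cons_self_tail]

/-- the product as a sum over the box -/
theorem PDC_box (K : ℕ) : ∀ (R : ℕ) (u : Fin R → ArithmeticFunction ℂ), (∀ i m, 2 ^ K ≤ m → u i m = 0) →
    ∀ (G : ℕ → ℂ) (N : ℕ), 2 ^ (K * R) ≤ N → ∑ b ∈ Ioc 0 N, (∏ i, u i) b * G b =
      ∑ m ∈ Fintype.piFinset (fun _ : Fin R => Ico 1 (2 ^ K)), (∏ i, u i (m i)) * G (∏ i, m i) := by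
  intro R
  induction R with
  | zero =>
    intro u _ G N hN
    simp only [mul_zero, pow_zero] at hN
    have h1 : (1 : ℕ) ∈ Ioc 0 N := by
      rw [mem_Ioc]
      exact ⟨one_pos, hN⟩
    rw [Finset.sum_eq_single_of_mem 1 h1]
    · simp
    · intro b _ hb
      simp [ArithmeticFunction.one_apply_ne hb]
  | succ R ih =>
    intro u hu G N hN
    have hKR : 2 ^ K * 2 ^ (K * R) ≤ N := by
      rw [← pow_add]
      refine le_trans (le_of_eq ?_) hN
      congr 1
      ring
    have hK1 : 2 ^ K ≤ N := le_trans (Nat.le_mul_of_pos_right _ (by positivity)) hKR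
    rw [Fin.prod_univ_succ, PDC_conv, PDC_cons]
    have hsub : Ico 1 (2 ^ K) ⊆ Ioc 0 N := by
      intro n hn
      rw [mem_Ico] at hn
      rw [mem_Ioc]
      omega
    rw [← Finset.sum_subset hsub]
    · refine sum_congr rfl fun n hn => ?_
      rw [mem_Ico] at hn
      have hNn : 2 ^ (K * R) ≤ N / n := by
        rw [Nat.le_div_iff_mul_le (by omega)]
        calc 2 ^ (K * R) * n ≤ 2 ^ (K * R) * 2 ^ K := Nat.mul_le_mul_left _ hn.2.le
          _ = 2 ^ K * 2 ^ (K * R) := mul_comm _ _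
          _ ≤ N := hKR
      rw [ih (fun i => u i.succ) (fun i => hu i.succ) (fun m => G (n * m)) (N / n) hNn, Finset.mul_sum]
      refine sum_congr rfl fun m _ => ?_
      rw [Fin.prod_univ_succ, Fin.prod_univ_succ]
      simp only [Fin.cons_zero, Fin.cons_succ]
      ring
    · intro n hn hn'
      rw [mem_Ioc] at hn
      rw [mem_Ico] at hn'
      rw [hu 0 n (by omega)]
      simp

/-- PDC -/
theorem PDC : PDC_stmt := by
  intro R K u hu G
  rw [PDC_box K R u hu G _ (le_refl _)]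
  have hmap : ∀ m ∈ Fintype.piFinset (fun _ : Fin R => Ico 1 (2 ^ K)),
      (fun i => Nat.log 2 (m i)) ∈ Fintype.piFinset (fun _ : Fin R => range K) := by
    intro m hm
    rw [Fintype.mem_piFinset] at hm ⊢
    intro i
    have h := mem_Ico.1 (hm i)
    rw [mem_range]
    exact Nat.log_lt_of_lt_pow (by omega) h.2
  rw [← Finset.sum_fiberwise_of_maps_to hmap]
  refine sum_congr rfl fun e he => ?_
  rw [Fintype.mem_piFinset] at he
  refine sum_congr ?_ fun _ _ => rfl
  ext m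
  rw [mem_filter, Fintype.mem_piFinset, Fintype.mem_piFinset]
  constructor
  · rintro ⟨h1, h2⟩ i
    have h3 := mem_Ico.1 (h1 i)
    have h4 : Nat.log 2 (m i) = e i := congrFun h2 i
    rw [mem_Ico]
    exact (Nat.log_eq_iff (Or.inr ⟨one_lt_two, by omega⟩)).1 h4
  · intro h
    have hpos : ∀ i, 1 ≤ m i := fun i => le_trans Nat.one_le_two_pow (mem_Ico.1 (h i)).1
    refine ⟨fun i => ?_, ?_⟩
    · rw [mem_Ico]
      refine ⟨hpos i, lt_of_lt_of_le (mem_Ico.1 (h i)).2 ?_⟩
      exact Nat.pow_le_pow_right (by norm_num) (mem_range.1 (he i))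
    · funext i
      exact (Nat.log_eq_iff (Or.inr ⟨one_lt_two, by have := hpos i; omega⟩)).2 (mem_Ico.1 (h i))

end Pool.Agent.BP
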